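import Pool.Agent.LRch.Gen
import Pool.Agent.ECD.PcCard

/-!
# Package AlgA-AbRank: subgroups of finite abelian groups with `R` generators

`G` is a finite group with commuting elements, generated by `g 0, …, g (R - 1)`.

*`ab_gen`*: every subgroup `H` is generated by `R` elements: the map `ℤ^R → G`, `k ↦ ∏ g i ^ k i` is
onto, the preimage of `H` is a submodule of `ℤ^R`, so free of rank at most `R` (Mathlib: submodules of
free modules over a PID, for instance `Submodule.basisOfPid` / `Submodule.nonempty_basis_of_pid`,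
`Submodule.finrank_le`), so it is generated by `R` elements; take their images. ∎

*`ab_bgen`*: if `H` is generated by `h 0, …, h (R - 1)` then each element of `H` is
`h 0 ^ t 0 * (h 1 ^ t 1 * …)` with `t i : ℕ` (finite, commutative): `BGen H R`. ∎

*`ab_pcl`*: by induction on `i`: the subgroup generated by `h j`, `j < i`, has `PCL i` (normal
subgroups: everything commutes); `ab_sylPC`: for a prime `l` let `P` be the subgroup of the elements of
`H` whose order is a power of `l` (or a Sylow subgroup of `H`, mapped to `G`); it is generated by `R`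
elements by `ab_gen`, so it has `PCL R`, and its order is the full power of `l` in the order of `H`
(`Sylow.card_eq_multiplicity`). ∎

Difficulty: 1.8 h.
-/

set_option autoImplicit false

namespace Pool.Agent.AlgA

open Finset Pool.Agent.ECD Pool.Agent.LRch

variable {G : Type*} [Group G] [Finite G] {R : ℕ}

private theorem pcl_closure {G : Type*} [Group G] (hc : ∀ a b : G, a * b = b * a) :
    ∀ (i : ℕ) (h : Fin i → G), PCL i (Subgroup.closure (Set.range h)) := by
  intro i
  induction i with
  | zero =>
    intro h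
    change Subgroup.closure (Set.range h) = ⊥
    rw [Set.range_eq_empty, Subgroup.closure_empty]
  | succ i ih =>
    intro h
    refine ⟨Subgroup.closure (Set.range fun j : Fin i => h j.castSucc), h (Fin.last i), ih _, ?_, ?_⟩
    · intro x
      rw [hc (h (Fin.last i)) x, mul_inv_cancel_right]
    · rw [Subgroup.zpowers_eq_closure, ← Subgroup.closure_union]
      congr 1
      ext x
      simp only [Set.mem_range, Set.mem_union, Set.mem_singleton_iff]
      constructor
      · rintro ⟨j, rfl⟩
        induction j using Fin.lastCases with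
        | last => exact Or.inr rfl
        | cast j => exact Or.inl ⟨j, rfl⟩
      · rintro (⟨j, rfl⟩ | rfl)
        · exact ⟨_, rfl⟩
        · exact ⟨_, rfl⟩

private theorem cyc_mul {G : Type*} [Group G] (hc : ∀ a b : G, a * b = b * a) (l : List G) :
    ∀ x y : G, x ∈ cyc l → y ∈ cyc l → x * y ∈ cyc l := by
  induction l with
  | nil =>
    intro x y hx hy
    rw [mem_cyc_nil] at hx hy ⊢
    rw [hx, hy, mul_one]
  | cons a l ih =>
    intro x y hx hy
    rw [mem_cyc_cons] at hx hy ⊢
    obtain ⟨t, x', hx', rfl⟩ := hx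
    obtain ⟨s, y', hy', rfl⟩ := hy
    refine ⟨t + s, x' * y', ih _ _ hx' hy', ?_⟩
    rw [pow_add, mul_assoc, mul_assoc, ← mul_assoc x', hc x' (a ^ s), mul_assoc]

theorem ab_gen (hc : ∀ a b : G, a * b = b * a) (g : Fin R → G)
    (hg : Subgroup.closure (Set.range g) = ⊤) (H : Subgroup G) :
    ∃ h : Fin R → G, Subgroup.closure (Set.range h) = H := by
  letI : CommGroup G := { ‹Group G› with mul_comm := hc }
  let φ : (Fin R → ℤ) →ₗ[ℤ] Additive G :=
    Fintype.linearCombination ℤ (fun i => Additive.ofMul (g i))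
  have hφ : ∀ x : G, ∃ k, φ k = Additive.ofMul x := by
    intro x
    have hx : x ∈ Subgroup.closure (Set.range g) := by rw [hg]; exact Subgroup.mem_top x
    induction hx using Subgroup.closure_induction with
    | mem x hx =>
      obtain ⟨i, rfl⟩ := hx
      refine ⟨Pi.single i 1, ?_⟩
      change Fintype.linearCombination ℤ _ (Pi.single i 1) = _
      rw [Fintype.linearCombination_apply_single, one_smul]
    | one => exact ⟨0, by rw [map_zero]; rfl⟩
    | mul x y _ _ hx hy =>
      obtain ⟨k, hk⟩ := hx
      obtain ⟨m, hm⟩ := hy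
      exact ⟨k + m, by rw [map_add, hk, hm]; rfl⟩
    | inv x _ hx =>
      obtain ⟨k, hk⟩ := hx
      exact ⟨-k, by rw [map_neg, hk]; rfl⟩
  let HA : Submodule ℤ (Additive G) := AddSubgroup.toIntSubmodule (Subgroup.toAddSubgroup H)
  have hHA : ∀ x : G, Additive.ofMul x ∈ HA ↔ x ∈ H := fun x => Iff.rfl
  let M : Submodule ℤ (Fin R → ℤ) := HA.comap φ
  obtain ⟨n, b⟩ := Submodule.basisOfPid (Pi.basisFun ℤ (Fin R)) M
  have hn : n ≤ R := by
    have h1 := Submodule.finrank_le M
    rw [Module.finrank_eq_card_basis b, Fintype.card_fin, Module.finrank_fin_fun] at h1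
    exact h1
  let h : Fin R → G := fun i =>
    if hi : (i : ℕ) < n then Additive.toMul (φ (b ⟨i, hi⟩ : M)) else 1
  refine ⟨h, le_antisymm ?_ ?_⟩
  · rw [Subgroup.closure_le]
    rintro x ⟨i, rfl⟩
    by_cases hi : (i : ℕ) < n
    · have e : h i = Additive.toMul (φ (b ⟨i, hi⟩ : M)) := dif_pos hi
      rw [SetLike.mem_coe, e]
      exact (b ⟨i, hi⟩ : M).2
    · have e : h i = 1 := dif_neg hi
      rw [SetLike.mem_coe, e]
      exact one_mem H
  · intro x hx
    obtain ⟨k, hk⟩ := hφ x
    have hkM : k ∈ M := by
      change φ k ∈ HA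
      rw [hk]
      exact (hHA x).2 hx
    let C : Submodule ℤ (Additive G) :=
      AddSubgroup.toIntSubmodule (Subgroup.toAddSubgroup (Subgroup.closure (Set.range h)))
    have key : Submodule.span ℤ (Set.range b) ≤ C.comap (φ.comp M.subtype) := by
      rw [Submodule.span_le]
      rintro y ⟨i, rfl⟩
      change Additive.toMul (φ (b i : M)) ∈ Subgroup.closure (Set.range h)
      refine Subgroup.subset_closure ⟨⟨i, i.2.trans_le hn⟩, ?_⟩
      exact dif_pos i.2
    rw [b.span_eq] at key
    have h1 : φ k ∈ C := key (Submodule.mem_top (x := (⟨k, hkM⟩ : M)))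
    rw [hk] at h1
    exact h1

theorem ab_bgen (hc : ∀ a b : G, a * b = b * a) (g : Fin R → G)
    (hg : Subgroup.closure (Set.range g) = ⊤) (H : Subgroup G) : BGen H R := by
  obtain ⟨h, hh⟩ := ab_gen hc g hg H
  have hm : ∀ i, h i ∈ H := fun i => by
    rw [← hh]
    exact Subgroup.subset_closure ⟨i, rfl⟩
  refine ⟨List.ofFn fun i => (⟨h i, hm i⟩ : H), ?_, fun x => ?_⟩
  · rw [List.length_ofFn]
  · have h1 : (x : G) ∈ cyc (List.ofFn h) := by
      refine closure_subset_cyc (S := Set.range h) ?_ (cyc_mul hc _) ?_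
      · rintro y ⟨i, rfl⟩
        exact mem_cyc_of_mem (List.mem_ofFn.2 ⟨i, rfl⟩)
      · rw [hh]
        exact x.2
    have h2 : List.ofFn h = (List.ofFn fun i => (⟨h i, hm i⟩ : H)).map H.subtype := by
      rw [List.map_ofFn]
      rfl
    rw [h2, mem_cyc_map] at h1
    obtain ⟨z, hz, e⟩ := h1
    have : z = x := Subtype.ext e
    rwa [← this]

theorem ab_sylPC (hc : ∀ a b : G, a * b = b * a) (g : Fin R → G)
    (hg : Subgroup.closure (Set.range g) = ⊤) (H : Subgroup G) : SylPC H R := by
  intro l hl
  have : Fact l.Prime := ⟨hl⟩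
  let S : Sylow l H := default
  let P : Subgroup G := (S : Subgroup H).map H.subtype
  obtain ⟨h, hh⟩ := ab_gen hc g hg P
  refine ⟨P, ?_, ?_, ?_⟩
  · rintro x ⟨y, -, rfl⟩
    exact y.2
  · rw [← hh]
    exact pcl_closure hc R h
  · have e : Nat.card P = Nat.card (S : Subgroup H) :=
      Subgroup.card_map_of_injective H.subtype_injective
    rw [e, Sylow.card_eq_multiplicity]

end Pool.Agent.AlgA
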