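import Pool.Agent.AlgA.MatPow

/-!
# Package AlgA-AffIt: iterates of affine maps of `G ^ k`, `G` commutative

The map `T : y ↦ (c i * ∏_j y j ^ A i j)_i` of `G ^ k`.

*`aff_it`*. Let `B` be the `2 k × 2 k` matrix `[[A, 1], [0, 1]]` (index `Fin k ⊕ Fin k` or
`Fin (k + k)`), so `B ^ t = [[A ^ t, ∑_(s < t) A ^ s], [0, 1]]`, and
`T^t(x) i = ∏_j x j ^ (A ^ t) i j * ∏_j c j ^ (∑_(s < t) A ^ s) i j` (induction on `t`, `G`
commutative; all entries natural numbers). Let `N u ≥ 1` be the product of the orders of the `x j`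
and of the `c j` (`GFam.gord`; finitely many factors): the exponents may be reduced modulo `N u`
(`pow_mod_orderOf`-like: `x ^ a = x ^ b` if `a ≡ b` modulo a multiple of the order). The entries of
`B ^ t` modulo `N u` are `DFun` by `mat_pow` with `M = N - 1` (the cast `ℕ → ℤ/N` is a ring
homomorphism, so it commutes with powers of matrices: `Matrix.map_pow`-like). Powers of elements:
`GFam.gpow` / `GFam.dpow`; finite products: `GFam.gmul`, `GFam.gone` (induction on the list or on
`k`). ∎

Difficulty: 1.8 h.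
-/

set_option autoImplicit false

namespace Pool.Agent.AlgA

open Finset Pool.Agent.Grz Pool.Agent.GAvg Pool.Agent.PTr Pool.Agent.MTr Pool.Agent.LPC
  Pool.Agent.ECD Pool.Agent.LRch

private def LBa {G : Type*} [CommGroup G] {K : ℕ} (B : Matrix (Fin K) (Fin K) ℕ)
    (z : Fin K → G) : Fin K → G :=
  fun i => ∏ j, z j ^ B i j

private theorem LBa_iter {G : Type*} [CommGroup G] {K : ℕ} (B : Matrix (Fin K) (Fin K) ℕ)
    (z : Fin K → G) (t : ℕ) (i : Fin K) :
    (LBa B)^[t] z i = ∏ j, z j ^ (B ^ t) i j := by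
  induction t generalizing i with
  | zero =>
    rw [Function.iterate_zero, id, pow_zero, Finset.prod_eq_single i]
    · rw [Matrix.one_apply_eq, pow_one]
    · intro j _ hj
      rw [Matrix.one_apply_ne (Ne.symm hj), pow_zero]
    · intro h
      exact absurd (Finset.mem_univ i) h
  | succ t ih =>
    rw [Function.iterate_succ_apply']
    show ∏ l, ((LBa B)^[t] z l) ^ B i l = _
    have h1 : ∀ l, ((LBa B)^[t] z l) ^ B i l = ∏ j, z j ^ (B i l * (B ^ t) l j) := by
      intro l
      rw [ih l, ← Finset.prod_pow]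
      refine Finset.prod_congr rfl fun j _ => ?_
      rw [← pow_mul, mul_comm]
    rw [Finset.prod_congr rfl fun l _ => h1 l, Finset.prod_comm]
    refine Finset.prod_congr rfl fun j _ => ?_
    rw [Finset.prod_pow_eq_pow_sum, pow_succ' B t, Matrix.mul_apply]

private def BBa {k : ℕ} (A : Fin k → Fin k → ℕ) : Matrix (Fin (k + k)) (Fin (k + k)) ℕ :=
  fun i j => Fin.addCases (motive := fun _ => ℕ)
    (fun i' => Fin.addCases (motive := fun _ => ℕ) (fun j' => A i' j')
      (fun j' => if i' = j' then 1 else 0) j)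
    (fun i' => Fin.addCases (motive := fun _ => ℕ) (fun _ => 0)
      (fun j' => if i' = j' then 1 else 0) j) i

private theorem BBa_ll {k : ℕ} (A : Fin k → Fin k → ℕ) (i j : Fin k) :
    BBa A (Fin.castAdd k i) (Fin.castAdd k j) = A i j := by
  unfold BBa
  rw [Fin.addCases_left, Fin.addCases_left]

private theorem BBa_lr {k : ℕ} (A : Fin k → Fin k → ℕ) (i j : Fin k) :
    BBa A (Fin.castAdd k i) (Fin.natAdd k j) = if i = j then 1 else 0 := by
  unfold BBa
  rw [Fin.addCases_left, Fin.addCases_right]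

private theorem BBa_rl {k : ℕ} (A : Fin k → Fin k → ℕ) (i j : Fin k) :
    BBa A (Fin.natAdd k i) (Fin.castAdd k j) = 0 := by
  unfold BBa
  rw [Fin.addCases_right, Fin.addCases_left]

private theorem BBa_rr {k : ℕ} (A : Fin k → Fin k → ℕ) (i j : Fin k) :
    BBa A (Fin.natAdd k i) (Fin.natAdd k j) = if i = j then 1 else 0 := by
  unfold BBa
  rw [Fin.addCases_right, Fin.addCases_right]

private theorem prod_ite_a {G : Type*} [CommGroup G] {k : ℕ} (c : Fin k → G) (i : Fin k) :
    ∏ j, c j ^ (if i = j then 1 else 0) = c i := by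
  rw [Finset.prod_eq_single i]
  · rw [if_pos rfl, pow_one]
  · intro j _ hj
    rw [if_neg (Ne.symm hj), pow_zero]
  · intro h
    exact absurd (Finset.mem_univ i) h

private theorem aff_semi {G : Type*} [CommGroup G] {k : ℕ} (A : Fin k → Fin k → ℕ)
    (c : Fin k → G) (y : Fin k → G) :
    Fin.append (fun i => c i * (List.ofFn fun j => y j ^ A i j).prod) c =
      LBa (BBa A) (Fin.append y c) := by
  funext i
  unfold LBa
  rw [Fin.prod_univ_add]
  refine Fin.addCases (fun i' => ?_) (fun i' => ?_) i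
  · rw [Fin.append_left]
    have h1 : ∏ j : Fin k, Fin.append y c (Fin.castAdd k j) ^
        BBa A (Fin.castAdd k i') (Fin.castAdd k j) = ∏ j, y j ^ A i' j :=
      Finset.prod_congr rfl fun j _ => by rw [Fin.append_left, BBa_ll]
    have h2 : ∏ j : Fin k, Fin.append y c (Fin.natAdd k j) ^
        BBa A (Fin.castAdd k i') (Fin.natAdd k j) = ∏ j, c j ^ (if i' = j then 1 else 0) :=
      Finset.prod_congr rfl fun j _ => by rw [Fin.append_right, BBa_lr]
    rw [h1, h2, prod_ite_a, List.prod_ofFn, mul_comm]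
  · rw [Fin.append_right]
    have h1 : ∏ j : Fin k, Fin.append y c (Fin.castAdd k j) ^
        BBa A (Fin.natAdd k i') (Fin.castAdd k j) = 1 :=
      Finset.prod_eq_one fun j _ => by rw [BBa_rl, pow_zero]
    have h2 : ∏ j : Fin k, Fin.append y c (Fin.natAdd k j) ^
        BBa A (Fin.natAdd k i') (Fin.natAdd k j) = ∏ j, c j ^ (if i' = j then 1 else 0) :=
      Finset.prod_congr rfl fun j _ => by rw [Fin.append_right, BBa_rr]
    rw [h1, h2, prod_ite_a, one_mul]

private theorem aff_formula {G : Type*} [CommGroup G] {k : ℕ} (A : Fin k → Fin k → ℕ)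
    (c x : Fin k → G) (t : ℕ) (i : Fin k) :
    (fun (y : Fin k → G) (i : Fin k) => c i * (List.ofFn fun j => y j ^ A i j).prod)^[t] x i =
      ∏ j, Fin.append x c j ^ (BBa A ^ t) (Fin.castAdd k i) j := by
  have h1 : Function.Semiconj (fun y : Fin k → G => Fin.append y c)
      (fun (y : Fin k → G) (i : Fin k) => c i * (List.ofFn fun j => y j ^ A i j).prod)
      (LBa (BBa A)) := fun y => aff_semi A c y
  have h2 := (h1.iterate_right t) x
  have h3 := congrFun h2 (Fin.castAdd k i)
  have h4 : Fin.append ((fun (y : Fin k → G) (i : Fin k) =>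
      c i * (List.ofFn fun j => y j ^ A i j).prod)^[t] x) c (Fin.castAdd k i) =
      (fun (y : Fin k → G) (i : Fin k) =>
      c i * (List.ofFn fun j => y j ^ A i j).prod)^[t] x i := Fin.append_left _ _ _
  rw [← h4, ← LBa_iter]
  exact h3

/-- the exponents are reduced modulo a multiple of the orders -/
private theorem aff_red {G : Type*} [CommGroup G] {k m : ℕ} (A : Fin k → Fin k → ℕ)
    (c x : Fin k → G) (t : ℕ) (i : Fin k) (hm : ∀ j, (Fin.append x c j) ^ (m + 1) = 1) :
    (fun (y : Fin k → G) (i : Fin k) => c i * (List.ofFn fun j => y j ^ A i j).prod)^[t] x i =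
      (List.ofFn fun j => Fin.append x c j ^
        (((Matrix.of fun a b => ((BBa A a b : ℕ) : ZMod (m + 1)) : Mat (k + k) (m + 1)) ^ t)
          (Fin.castAdd k i) j).val).prod := by
  rw [aff_formula, List.prod_ofFn]
  refine Finset.prod_congr rfl fun j _ => ?_
  have h1 : (Matrix.of fun a b => ((BBa A a b : ℕ) : ZMod (m + 1)) : Mat (k + k) (m + 1)) =
      (BBa A).map (Nat.castRingHom (ZMod (m + 1))) := rfl
  rw [h1]
  have h2 : ((BBa A).map (Nat.castRingHom (ZMod (m + 1)))) ^ t =
      (BBa A ^ t).map (Nat.castRingHom (ZMod (m + 1))) := by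
    have h3 := map_pow (Nat.castRingHom (ZMod (m + 1))).mapMatrix (BBa A) t
    exact h3.symm
  rw [h2, Matrix.map_apply, Nat.coe_castRingHom, ZMod.val_natCast]
  exact pow_eq_pow_mod _ (hm j)

private theorem DFun_finProd_a {n : ℕ} {K : ℕ} {f : Fin K → (Fin n → ℕ) → ℕ}
    (h : ∀ j, DFun n (f j)) : DFun n (fun u => ∏ j, f j u) := by
  induction K with
  | zero =>
    simp only [Finset.univ_eq_empty, Finset.prod_empty]
    exact DFun.const 1
  | succ K ih =>
    have e : (fun u => ∏ j, f j u) = fun u => f 0 u * ∏ j : Fin K, f j.succ u := by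
      funext u
      rw [Fin.prod_univ_succ]
    rw [e]
    exact (h 0).mul (ih fun j => h j.succ)

private theorem gofFn_a {r : ℕ} (Φ : GFam r) {n : ℕ} {σ : Fin r → (Fin n → ℕ) → ℕ}
    (hσ : ∀ i, DFun n (σ i)) {K : ℕ} {f : ∀ u : Fin n → ℕ, Fin K → Φ.G (fun i => σ i u)}
    (hf : ∀ j, DFun n (fun u => Φ.enc _ (f u j))) :
    DFun n (fun u => Φ.enc _ (List.ofFn (f u)).prod) := by
  induction K with
  | zero =>
    have e : (fun u => Φ.enc (fun i => σ i u) (List.ofFn (f u)).prod) =
        fun u => Φ.enc (fun i => σ i u) 1 := by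
      funext u
      rw [List.ofFn_zero, List.prod_nil]
    rw [e]
    exact Φ.gone hσ
  | succ K ih =>
    have e : (fun u => Φ.enc (fun i => σ i u) (List.ofFn (f u)).prod) =
        fun u => Φ.enc (fun i => σ i u)
          (f u 0 * (List.ofFn fun j : Fin K => f u j.succ).prod) := by
      funext u
      rw [List.ofFn_succ, List.prod_cons]
    rw [e]
    exact Φ.gmul hσ (hf 0) (ih fun j => hf j.succ)

theorem aff_it {r : ℕ} (Φ : GFam r) {n : ℕ} {σ : Fin r → (Fin n → ℕ) → ℕ}
    (hσ : ∀ i, DFun n (σ i)) (hc : ∀ u, ∀ a b : Φ.G (fun i => σ i u), a * b = b * a) {k : ℕ}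
    {A : Fin k → Fin k → (Fin n → ℕ) → ℕ} (hA : ∀ i j, DFun n (A i j))
    {c x : ∀ u : Fin n → ℕ, Fin k → Φ.G (fun i => σ i u)}
    (hc' : ∀ i, DFun n (fun u => Φ.enc _ (c u i))) (hx : ∀ i, DFun n (fun u => Φ.enc _ (x u i)))
    {t : (Fin n → ℕ) → ℕ} (ht : DFun n t) (i : Fin k) :
    DFun n (fun u => Φ.enc _ ((fun (y : Fin k → Φ.G (fun i => σ i u)) (i : Fin k) =>
      c u i * (List.ofFn fun j => y j ^ A i j u).prod)^[t u] (x u) i)) := by
  classical
  -- the generators of the orbit
  have hz : ∀ j, DFun n (fun u => Φ.enc _ (Fin.append (x u) (c u) j)) := by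
    intro j
    refine Fin.addCases (fun j' => ?_) (fun j' => ?_) j
    · have e : (fun u => Φ.enc (fun i => σ i u) (Fin.append (x u) (c u) (Fin.castAdd k j'))) =
          fun u => Φ.enc (fun i => σ i u) (x u j') := by
        funext u
        rw [Fin.append_left]
      rw [e]
      exact hx j'
    · have e : (fun u => Φ.enc (fun i => σ i u) (Fin.append (x u) (c u) (Fin.natAdd k j'))) =
          fun u => Φ.enc (fun i => σ i u) (c u j') := by
        funext u
        rw [Fin.append_right]
      rw [e]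
      exact hc' j'
  have hN : DFun n (fun u => ∏ j, orderOf (Fin.append (x u) (c u) j)) :=
    DFun_finProd_a fun j => Φ.gord hσ (hz j)
  have hM : DFun n (fun u => ∏ j, orderOf (Fin.append (x u) (c u) j) - 1) :=
    hN.sub (DFun.const 1)
  have hpos : ∀ u, 0 < ∏ j, orderOf (Fin.append (x u) (c u) j) := fun u =>
    Finset.prod_pos fun j _ => orderOf_pos _
  -- the matrix
  have hB : MD (fun u => ∏ j, orderOf (Fin.append (x u) (c u) j) - 1)
      (fun u => (Matrix.of fun a b => ((BBa (fun i j => A i j u) a b : ℕ) :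
        ZMod (∏ j, orderOf (Fin.append (x u) (c u) j) - 1 + 1)) :
        Mat (k + k) (∏ j, orderOf (Fin.append (x u) (c u) j) - 1 + 1))) := by
    intro a b
    have h1 : DFun n (fun u => BBa (fun i j => A i j u) a b) := by
      refine Fin.addCases (fun a' => ?_) (fun a' => ?_) a
      · refine Fin.addCases (fun b' => ?_) (fun b' => ?_) b
        · simp only [BBa_ll]
          exact hA a' b'
        · simp only [BBa_lr]
          exact DFun.const _
      · refine Fin.addCases (fun b' => ?_) (fun b' => ?_) b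
        · simp only [BBa_rl]
          exact DFun.const _
        · simp only [BBa_rr]
          exact DFun.const _
    have h2 := DFun.mod h1 hM
    have e : (fun u => ((Matrix.of fun a b => ((BBa (fun i j => A i j u) a b : ℕ) :
        ZMod (∏ j, orderOf (Fin.append (x u) (c u) j) - 1 + 1)) :
        Mat (k + k) (∏ j, orderOf (Fin.append (x u) (c u) j) - 1 + 1)) a b).val) =
        fun u => BBa (fun i j => A i j u) a b %
          (∏ j, orderOf (Fin.append (x u) (c u) j) - 1 + 1) := by
      funext u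
      rw [Matrix.of_apply, ZMod.val_natCast]
    rw [e]
    exact h2
  have hP := mat_pow hM ht hB
  have hfin := gofFn_a Φ hσ (K := k + k)
    (f := fun u j => Fin.append (x u) (c u) j ^
      (((Matrix.of fun a b => ((BBa (fun i j => A i j u) a b : ℕ) :
        ZMod (∏ j, orderOf (Fin.append (x u) (c u) j) - 1 + 1)) :
        Mat (k + k) (∏ j, orderOf (Fin.append (x u) (c u) j) - 1 + 1)) ^ t u)
          (Fin.castAdd k i) j).val)
    (fun j => Φ.gpow hσ (hz j) (hP (Fin.castAdd k i) j))
  have e : (fun u => Φ.enc _ ((fun (y : Fin k → Φ.G (fun i => σ i u)) (i : Fin k) =>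
      c u i * (List.ofFn fun j => y j ^ A i j u).prod)^[t u] (x u) i)) =
      fun u => Φ.enc (fun i => σ i u) (List.ofFn fun j => Fin.append (x u) (c u) j ^
      (((Matrix.of fun a b => ((BBa (fun i j => A i j u) a b : ℕ) :
        ZMod (∏ j, orderOf (Fin.append (x u) (c u) j) - 1 + 1)) :
        Mat (k + k) (∏ j, orderOf (Fin.append (x u) (c u) j) - 1 + 1)) ^ t u)
          (Fin.castAdd k i) j).val).prod := by
    funext u
    congr 1
    let inst : CommGroup (Φ.G (fun i => σ i u)) := { Φ.grp (fun i => σ i u) with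
      mul_comm := hc u }
    have hm : ∀ j, (Fin.append (x u) (c u) j) ^
        (∏ j, orderOf (Fin.append (x u) (c u) j) - 1 + 1) = 1 := by
      intro j
      rw [Nat.sub_add_cancel (hpos u)]
      exact orderOf_dvd_iff_pow_eq_one.1 (Finset.dvd_prod_of_mem _ (Finset.mem_univ j))
    exact @aff_red _ inst k _ (fun i j => A i j u) (c u) (x u) (t u) i hm
  rw [e]
  exact hfin

end Pool.Agent.AlgA
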