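import Pool.Agent.AlgA.AbRank
import Pool.Agent.ECD.PcFin

/-!
# Package AlgA-SubGen: subgroups generated by definable sets, commutative families

`Φ` a family of groups; for the parameters `σ u` the group is commutative and generated by `R`
elements; `S u` is a definable family of subsets.

*`sub_mem`*: `closure_def` (LRch/Gen) with `ab_bgen`. *`sub_card`*: `GFam.card_sub` (ECD/PcFin) with
`ab_sylPC`; its hypothesis is `sub_mem` in `n + 1` variables with `x = Φ.dec _ (w 0)` (`GFam.gdec`,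
the parameters `σ i` weakened). ∎

Difficulty: 0.8 h.
-/

set_option autoImplicit false

namespace Pool.Agent.AlgA

open Finset Pool.Agent.Grz Pool.Agent.GAvg Pool.Agent.PTr Pool.Agent.MTr Pool.Agent.LPC
  Pool.Agent.ECD Pool.Agent.LRch

variable {r : ℕ} (Φ : GFam r) {n : ℕ} {σ : Fin r → (Fin n → ℕ) → ℕ}

theorem sub_mem (hσ : ∀ i, DFun n (σ i)) (R : ℕ)
    (hc : ∀ u, ∀ a b : Φ.G (fun i => σ i u), a * b = b * a)
    (hR : ∀ u, ∃ g : Fin R → Φ.G (fun i => σ i u), Subgroup.closure (Set.range g) = ⊤)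
    {S : ∀ u : Fin n → ℕ, Set (Φ.G (fun i => σ i u))}
    (hS : Delta0 (n + 1) (fun w =>
      Φ.dec (fun i => σ i (fun j => w j.succ)) (w 0) ∈ S (fun j => w j.succ))) :
    Delta0 (n + 1) (fun w => Φ.dec (fun i => σ i (fun j => w j.succ)) (w 0) ∈
      Subgroup.closure (S (fun j => w j.succ))) := by
  have hσ1 : ∀ i, DFun (n + 1) (fun w : Fin (n + 1) → ℕ => σ i (fun j => w j.succ)) :=
    fun i => (hσ i).weak
  refine closure_def Φ R (n := n + 1) (σ := fun i w => σ i (fun j => w j.succ)) hσ1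
    (S := fun w => S (fun j => w j.succ)) ?_ (fun w => ?_) (Φ.gdec hσ1 (DFun.proj 0))
  · have h1 := hS.subst (n := n + 1 + 1) (h := Fin.cons (fun w => w 0) fun j w => w j.succ.succ)
      (fun j => by
        refine Fin.cases ?_ (fun j => ?_) j
        · exact DFun.proj 0
        · exact DFun.proj j.succ.succ)
    exact h1
  · obtain ⟨g, hg⟩ := hR (fun j => w j.succ)
    exact ab_bgen (hc _) g hg _

theorem sub_card (hσ : ∀ i, DFun n (σ i)) (R : ℕ)
    (hc : ∀ u, ∀ a b : Φ.G (fun i => σ i u), a * b = b * a)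
    (hR : ∀ u, ∃ g : Fin R → Φ.G (fun i => σ i u), Subgroup.closure (Set.range g) = ⊤)
    {S : ∀ u : Fin n → ℕ, Set (Φ.G (fun i => σ i u))}
    (hS : Delta0 (n + 1) (fun w =>
      Φ.dec (fun i => σ i (fun j => w j.succ)) (w 0) ∈ S (fun j => w j.succ))) :
    DFun n (fun u => Nat.card (Subgroup.closure (S u))) := by
  refine Φ.card_sub hσ (H := fun u => Subgroup.closure (S u)) (sub_mem Φ hσ R hc hR hS) R
    (fun u => ?_)
  obtain ⟨g, hg⟩ := hR u
  exact ab_sylPC (hc u) g hg _

end Pool.Agent.AlgA
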