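import Pool.Agent.AlgA.AffIt
import Pool.Agent.AlgA.SubGen
import Pool.Agent.ECD.EcMul
import Pool.Agent.ECD.Rank

/-!
# Package AlgA-EcInst: elliptic curves over prime fields

The family `ecAlg : AlgFam …` (ECD/ECAlg; its groups are `Multiplicative (Pt (par …))`, its codes are
`enc`; see the proof of `ecFam` in ECD/ECFam for the translation between `ecAlg` and the additive
notation) with `Φ = ecAlg.toG` (`AlgFam.toG`).

*`ec_aff`*: `aff_it` for `Φ`; the parameters are `(p, a, b)`; `ptOf _ z` is `Φ.dec _ z` up to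
`Multiplicative.ofAdd` (`ptOf_eq`-like: both are the element with the code `z`, the neutral element if
there is none), so the codes of `ptOf _ (c i u)` are `DFun` (`GFam.gdec`). Rewrite the iterated map:
`∑ j, A i j • y j` is the `List.ofFn` product (`List.prod_ofFn`, `toAdd`). ∎

*`ec_sub`*: `sub_mem`, `sub_card`, with `R` from `ec_gen` (ECD/Rank);
`AddSubgroup.closure` and `Subgroup.closure` of the multiplicative copy correspond
(`AddSubgroup.toSubgroup'`-like, or mutual inclusions by `closure_induction`). ∎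

Difficulty: 1.8 h.
-/

set_option autoImplicit false

namespace Pool.Agent.AlgA

open Finset WeierstrassCurve Pool.Agent.Grz Pool.Agent.GAvg Pool.Agent.PTr Pool.Agent.MTr
  Pool.Agent.LPC Pool.Agent.ECD Pool.Agent.LRch

private theorem toAdd_ofFn_EcInst {A : Type*} [AddCommGroup A] {k : ℕ}
    (f : Fin k → Multiplicative A) :
    Multiplicative.toAdd (List.ofFn f).prod = ∑ j, Multiplicative.toAdd (f j) := by
  rw [List.prod_ofFn, toAdd_prod]

private theorem iter_EcInst {A : Type*} [AddCommGroup A] {k : ℕ} (c : Fin k → A)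
    (M : Fin k → Fin k → ℕ) (x : Fin k → A) (t : ℕ) :
    (fun (y : Fin k → Multiplicative A) (i : Fin k) =>
      Multiplicative.ofAdd (c i) * (List.ofFn fun j => y j ^ M i j).prod)^[t]
        (fun j => Multiplicative.ofAdd (x j)) =
      fun j => Multiplicative.ofAdd ((fun (y : Fin k → A) (i : Fin k) =>
        c i + ∑ j, M i j • y j)^[t] x j) := by
  induction t with
  | zero => rfl
  | succ t ih =>
    rw [Function.iterate_succ_apply', ih, Function.iterate_succ_apply']
    funext i
    apply Multiplicative.toAdd.injective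
    rw [toAdd_mul, toAdd_ofFn_EcInst]
    rfl

private theorem dec_EcInst (v : Fin 3 → ℕ) (z : ℕ) :
    ecFam.toG.dec v z = Multiplicative.ofAdd (ptOf (par (v 0) (v 1) (v 2)) z) := by
  by_cases h : ∃ P : Pt (par (v 0) (v 1) (v 2)), enc P = z
  · obtain ⟨P, rfl⟩ := h
    rw [ptOf_enc]
    exact ecFam.toG.dec_enc v (Multiplicative.ofAdd P)
  · rw [GFam.dec, dif_neg, ptOf, dif_neg h]
    · rfl
    · rintro ⟨x, hx⟩
      exact h ⟨Multiplicative.toAdd x, hx⟩

private theorem congr_EcInst {n : ℕ} {f g : (Fin n → ℕ) → ℕ} (h : DFun n g)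
    (e : ∀ v, f v = g v) : DFun n f := by
  rw [show f = g from funext e]
  exact h

private theorem comm_EcInst (v : Fin 3 → ℕ) (x y : ecFam.toG.G v) : x * y = y * x :=
  mul_comm (G := Multiplicative (Pt (par (v 0) (v 1) (v 2)))) x y

theorem ec_aff {n k : ℕ} {p a b t : (Fin n → ℕ) → ℕ} (hp : DFun n p) (ha : DFun n a)
    (hb : DFun n b) (ht : DFun n t) {A : Fin k → Fin k → (Fin n → ℕ) → ℕ}
    (hA : ∀ i j, DFun n (A i j)) {c x : Fin k → (Fin n → ℕ) → ℕ} (hc : ∀ i, DFun n (c i))
    (hx : ∀ i, DFun n (x i)) (i : Fin k) :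
    DFun n (fun u => enc ((fun (y : Fin k → Pt (par (p u) (a u) (b u))) (i : Fin k) =>
      ptOf (par (p u) (a u) (b u)) (c i u) + ∑ j, A i j u • y j)^[t u]
        (fun j => ptOf (par (p u) (a u) (b u)) (x j u)) i)) := by
  have hσ : ∀ i : Fin 3, DFun n ((![p, a, b] : Fin 3 → (Fin n → ℕ) → ℕ) i) := by
    intro i
    fin_cases i
    · exact hp
    · exact ha
    · exact hb
  have h := aff_it ecFam.toG (σ := ![p, a, b]) hσ
    (fun u x y => comm_EcInst _ x y) hA
    (c := fun u i => Multiplicative.ofAdd (ptOf (par (p u) (a u) (b u)) (c i u)))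
    (x := fun u i => Multiplicative.ofAdd (ptOf (par (p u) (a u) (b u)) (x i u)))
    (fun i => ecFam.ddec hσ (hc i)) (fun i => ecFam.ddec hσ (hx i)) ht i
  refine congr_EcInst h fun u => ?_
  have h2 := iter_EcInst (fun i => ptOf (par (p u) (a u) (b u)) (c i u)) (fun i j => A i j u)
    (fun j => ptOf (par (p u) (a u) (b u)) (x j u)) (t u)
  exact (congrArg (fun y : Fin k → Multiplicative (Pt (par (p u) (a u) (b u))) =>
    enc (Multiplicative.toAdd (y i))) h2).symm

private theorem mem_EcInst {A : Type*} [AddCommGroup A] (S : Set A) (P : A) :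
    Multiplicative.ofAdd P ∈ Subgroup.closure (Multiplicative.toAdd ⁻¹' S) ↔
      P ∈ AddSubgroup.closure S := by
  rw [← AddSubgroup.toSubgroup_closure]
  rfl

private theorem card_EcInst {A : Type*} [AddCommGroup A] (S : Set A) :
    Nat.card (Subgroup.closure (Multiplicative.toAdd ⁻¹' S : Set (Multiplicative A))) =
      Nat.card (AddSubgroup.closure S) := by
  refine Nat.card_congr (Equiv.subtypeEquiv Multiplicative.toAdd fun x => ?_)
  exact mem_EcInst S (Multiplicative.toAdd x)

private theorem gen_EcInst {A : Type*} [AddCommGroup A] {R : ℕ} (g : Fin R → A)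
    (h : ∀ P : A, ∃ k : Fin R → ℕ, P = ∑ i, k i • g i) :
    Subgroup.closure (Set.range fun i => Multiplicative.ofAdd (g i)) = ⊤ := by
  have h1 : (Set.range fun i => Multiplicative.ofAdd (g i)) =
      Multiplicative.toAdd ⁻¹' (Set.range g) := by
    ext x
    constructor
    · rintro ⟨i, rfl⟩
      exact ⟨i, rfl⟩
    · rintro ⟨i, hi⟩
      exact ⟨i, Multiplicative.toAdd.injective hi⟩
  rw [h1, eq_top_iff]
  intro x _
  refine (mem_EcInst (Set.range g) (Multiplicative.toAdd x)).2 ?_
  obtain ⟨k, hk⟩ := h (Multiplicative.toAdd x)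
  rw [hk]
  exact sum_mem fun i _ => nsmul_mem (AddSubgroup.subset_closure (Set.mem_range_self i)) _

theorem ec_sub {n : ℕ} {p a b : (Fin n → ℕ) → ℕ} (hp : DFun n p) (ha : DFun n a)
    (hb : DFun n b) {S : ∀ u : Fin n → ℕ, Set (Pt (par (p u) (a u) (b u)))}
    (hS : Delta0 (n + 1) (fun w => ptOf (par (p fun j => w j.succ) (a fun j => w j.succ)
      (b fun j => w j.succ)) (w 0) ∈ S (fun j => w j.succ))) :
    Delta0 (n + 1) (fun w => ptOf (par (p fun j => w j.succ) (a fun j => w j.succ)
      (b fun j => w j.succ)) (w 0) ∈ AddSubgroup.closure (S (fun j => w j.succ))) ∧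
    DFun n (fun u => Nat.card (AddSubgroup.closure (S u))) := by
  obtain ⟨R, hR⟩ := ec_gen
  have hσ : ∀ i : Fin 3, DFun n ((![p, a, b] : Fin 3 → (Fin n → ℕ) → ℕ) i) := by
    intro i
    fin_cases i
    · exact hp
    · exact ha
    · exact hb
  have hcom : ∀ u, ∀ x y : ecFam.toG.G (fun i => (![p, a, b] : Fin 3 → (Fin n → ℕ) → ℕ) i u),
      x * y = y * x := fun u x y => comm_EcInst _ x y
  have hgen : ∀ u, ∃ g : Fin R → ecFam.toG.G (fun i => (![p, a, b] :
      Fin 3 → (Fin n → ℕ) → ℕ) i u), Subgroup.closure (Set.range g) = ⊤ := by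
    intro u
    obtain ⟨g, hg⟩ := hR (par (p u) (a u) (b u))
    exact ⟨fun i => Multiplicative.ofAdd (g i), gen_EcInst g hg⟩
  have hS' : Delta0 (n + 1) (fun w => ecFam.toG.dec (fun i => (![p, a, b] :
      Fin 3 → (Fin n → ℕ) → ℕ) i (fun j => w j.succ)) (w 0) ∈
        (fun u : Fin n → ℕ => (Multiplicative.toAdd ⁻¹' (S u) :
          Set (Multiplicative (Pt (par (p u) (a u) (b u)))))) (fun j => w j.succ)) := by
    refine hS.of_iff fun w => ?_
    rw [dec_EcInst]
    exact Iff.rfl
  refine ⟨?_, ?_⟩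
  · have h := sub_mem ecFam.toG (σ := ![p, a, b]) hσ R hcom hgen hS'
    refine h.of_iff fun w => ?_
    rw [dec_EcInst]
    exact (mem_EcInst _ _).symm
  · have h := sub_card ecFam.toG (σ := ![p, a, b]) hσ R hcom hgen hS'
    exact congr_EcInst h fun u => (card_EcInst (S u)).symm

end Pool.Agent.AlgA
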