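import Pool.Agent.AlgA.MatSmall

/-!
# Package AlgA-MatPow: powers of arbitrary matrices over `ℤ/m`

*`fitting`*: let `A` be a square matrix of size `r` over `ℤ/m`, `m > 0`, `e ≥ r (lg m + 1)`. The monoid of
matrices is finite, so some power `E = A ^ s`, `s ≥ 1`, is idempotent (for instance from
`A ^ i = A ^ j`, `i < j`, take a multiple of `j - i` that is at least `i`); let `P = 1 - E`. `P` is
idempotent and commutes with `A`; `(A P) ^ s = E P = 0`. So `A P` is nilpotent and `A ^ e P = 0`: the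
subgroups `A ^ i P (ℤ/m)^r` of `(ℤ/m)^r` decrease strictly until they are `0` (if two consecutive ones
agree then all later ones agree, so they are `0`), their orders divide each other, so each is at
most half of the one before, and the first has order at most `m ^ r < 2 ^ (r (lg m + 1))` for
`r > 0`. `Q = A ^ (s - 1) E + ∑_(i < s) (- A) ^ i P` is inverse to `A + P` (it commutes with it):
`(A + P) A ^ (s - 1) E = A ^ s E = E` and `(A + P) P = (1 + A) P`,
`(1 + A) ∑_(i < s) (- A) ^ i P = (1 - (- A) ^ s) P = P`. ∎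

*`mat_pow`*: choose `P u`, `Q u` with `P * P = P`, `P A = A P`, `A ^ e P = 0`, `(A + P) Q = 1`,
`Q (A + P) = 1`, `e = r (lg (M u + 1) + 1)`, as the matrices with the least code (`mex`-like; `mat_small`
for `A ^ e`; for instance take the least pair code with `Delta0` properties as a `DFun`:
`ECD` has private lemmas like `ExpNum_find`). For `t ≥ e`:
`A ^ t = (A + P) ^ t (1 - P)` (the product with `1 - P` kills `P`; `A ^ t P = 0`), and the entries of
`(A + P) ^ t` are `DFun` by `gl_npow` (ECD/GLCode) for the unit with value `A + P` and inverse `Q`.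
For `t < e`: `mat_small`. `DFun.ite`. ∎

Difficulty: 1.8 h.
-/

set_option autoImplicit false

namespace Pool.Agent.AlgA

open Finset Pool.Agent.Grz Pool.Agent.GAvg Pool.Agent.PTr Pool.Agent.MTr Pool.Agent.LPC
  Pool.Agent.ECD Pool.Agent.LRch

/-! ### The Fitting decomposition -/

/-- a power of an element of a finite monoid is idempotent -/
private theorem exists_idem {R : Type} [Monoid R] [Finite R] (a : R) :
    ∃ s, 0 < s ∧ a ^ s * a ^ s = a ^ s := by
  obtain ⟨i, j, hij, h⟩ := Finite.exists_ne_map_eq_of_infinite (fun i : ℕ => a ^ i)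
  have key : ∀ i j : ℕ, i < j → a ^ i = a ^ j → ∃ s, 0 < s ∧ a ^ s * a ^ s = a ^ s := by
    intro i j hij h
    obtain ⟨d, hd⟩ : ∃ d, d = j - i := ⟨_, rfl⟩
    have hd0 : 0 < d := by omega
    have h1 : ∀ k, i ≤ k → a ^ (k + d) = a ^ k := by
      intro k hk
      have e1 : k + d = (k - i) + j := by omega
      have e2 : k = (k - i) + i := by omega
      rw [e1, pow_add, ← h, ← pow_add, ← e2]
    have h2 : ∀ c k, i ≤ k → a ^ (k + c * d) = a ^ k := by
      intro c
      induction c with
      | zero => intro k _; simp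
      | succ c ih =>
        intro k hk
        have e : k + (c + 1) * d = (k + c * d) + d := by ring
        rw [e, h1 _ (by omega), ih k hk]
    refine ⟨(i + 1) * d, Nat.mul_pos (Nat.succ_pos _) hd0, ?_⟩
    rw [← pow_add]
    refine h2 (i + 1) _ ?_
    nlinarith
  rcases Nat.lt_or_gt_of_ne hij with h3 | h3
  · exact key i j h3 h
  · exact key j i h3 h.symm

/-- the images of the powers of a matrix -/
private theorem chain_zero {r m : ℕ} (A P : Mat r (m + 1)) {s e : ℕ} (hs : A ^ s * P = 0)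
    (hPA : P * A = A * P) (he : r * (lg (m + 1) + 1) ≤ e) : A ^ e * P = 0 := by
  classical
  obtain ⟨f, hf⟩ : ∃ f : ℕ → AddSubgroup (Fin r → ZMod (m + 1)),
      f = fun i => (Matrix.mulVecLin (A ^ i * P)).toAddMonoidHom.range := ⟨_, rfl⟩
  have hmem : ∀ i x, x ∈ f i ↔ ∃ y, Matrix.mulVec (A ^ i * P) y = x := by
    intro i x
    rw [hf]
    rfl
  have hstep : ∀ i x, x ∈ f (i + 1) ↔ ∃ y ∈ f i, Matrix.mulVec A y = x := by
    intro i x
    rw [hmem]
    constructor
    · rintro ⟨y, hy⟩
      refine ⟨_, (hmem i _).2 ⟨y, rfl⟩, ?_⟩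
      rw [Matrix.mulVec_mulVec, ← mul_assoc, ← pow_succ', hy]
    · rintro ⟨y, hy, hx⟩
      obtain ⟨z, hz⟩ := (hmem i y).1 hy
      refine ⟨z, ?_⟩
      rw [← hx, ← hz, Matrix.mulVec_mulVec, ← mul_assoc, ← pow_succ']
  have hbot : ∀ i, f i = ⊥ ↔ A ^ i * P = 0 := by
    intro i
    constructor
    · intro h
      ext a b
      have h1 : Matrix.mulVec (A ^ i * P) (Pi.single b 1) ∈ f i := (hmem i _).2 ⟨_, rfl⟩
      rw [h, AddSubgroup.mem_bot] at h1
      have h2 := congrFun h1 a
      rw [Matrix.mulVec_single_one] at h2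
      exact h2
    · intro h
      rw [eq_bot_iff]
      intro x hx
      obtain ⟨y, hy⟩ := (hmem i x).1 hx
      rw [h, Matrix.zero_mulVec] at hy
      rw [← hy]
      exact AddSubgroup.zero_mem _
  -- if two consecutive images agree, they vanish
  have hstab : ∀ i, f (i + 1) = f i → f i = ⊥ := by
    intro i h
    have h1 : ∀ k, f (i + k) = f i := by
      intro k
      induction k with
      | zero => rfl
      | succ k ih =>
        ext x
        rw [← add_assoc, hstep, ih, ← hstep, h]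
    have h2 : f (i + s) = ⊥ := by
      rw [hbot, pow_add, mul_assoc, hs, mul_zero]
    rw [← h1 s, h2]
  have hle : ∀ i, f (i + 1) ≤ f i := by
    intro i
    induction i with
    | zero =>
      intro x hx
      obtain ⟨y, hy⟩ := (hmem _ x).1 hx
      refine (hmem _ x).2 ⟨Matrix.mulVec A y, ?_⟩
      rw [← hy, Matrix.mulVec_mulVec, pow_zero, one_mul, zero_add, pow_one, hPA]
    | succ i ih =>
      intro x hx
      rw [hstep] at hx ⊢
      obtain ⟨y, hy, hx⟩ := hx
      exact ⟨y, ih hy, hx⟩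
  have hcard : ∀ i, f i = ⊥ ∨ Nat.card (f i) * 2 ^ i ≤ (m + 1) ^ r := by
    intro i
    induction i with
    | zero =>
      right
      rw [pow_zero, mul_one]
      refine (AddSubgroup.card_le_card_addGroup (f 0)).trans ?_
      rw [Nat.card_fun, Nat.card_zmod, Nat.card_fin]
    | succ i ih =>
      rcases ih with h | h
      · left
        rw [eq_bot_iff, ← h]
        exact hle i
      · by_cases h1 : f (i + 1) = f i
        · left
          rw [h1]
          exact hstab i h1
        · right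
          obtain ⟨k, hk⟩ := AddSubgroup.card_dvd_of_le (hle i)
          have h0 : 0 < Nat.card (f (i + 1)) := Nat.card_pos
          have h2 : 0 < Nat.card (f i) := Nat.card_pos
          have h3 : 2 ≤ k := by
            by_contra h4
            have h5 : k = 0 ∨ k = 1 := by omega
            rcases h5 with h5 | h5
            · rw [h5, mul_zero] at hk
              omega
            · rw [h5, mul_one] at hk
              exact h1 (AddSubgroup.eq_of_le_of_card_ge (hle i) hk.le)
          refine le_trans ?_ h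
          rw [hk, pow_succ]
          nlinarith [Nat.mul_le_mul_left (Nat.card (f (i + 1)) * 2 ^ i) h3]
  rcases hcard e with h | h
  · exact (hbot e).1 h
  · by_contra hne
    have h1 : f e ≠ ⊥ := fun h1 => hne ((hbot e).1 h1)
    have h2 : 1 < Nat.card (f e) := by
      rw [AddSubgroup.one_lt_card_iff_ne_bot]
      exact h1
    have h3 : (m + 1) ^ r ≤ 2 ^ e := by
      refine (Nat.pow_le_pow_left (lt_two_pow_lg (m + 1)).le r).trans ?_
      rw [← pow_mul, mul_comm]
      exact Nat.pow_le_pow_right (by norm_num) he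
    have h4 : 0 < 2 ^ e := pow_pos (by norm_num) e
    nlinarith

theorem fitting {r m : ℕ} (A : Mat r (m + 1)) {e : ℕ} (he : r * (lg (m + 1) + 1) ≤ e) :
    ∃ P Q : Mat r (m + 1), P * P = P ∧ P * A = A * P ∧ A ^ e * P = 0 ∧ (A + P) * Q = 1 ∧
      Q * (A + P) = 1 := by
  obtain ⟨s, hs, hE⟩ := exists_idem A
  obtain ⟨P, hP⟩ : ∃ P, P = 1 - A ^ s := ⟨_, rfl⟩
  have hcom : Commute P A := by
    rw [hP]
    exact (Commute.one_left A).sub_left ((Commute.refl A).pow_left s)
  have hPP : P * P = P := by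
    rw [hP, sub_mul, mul_sub, mul_sub, hE]
    simp
  have hsP : A ^ s * P = 0 := by
    rw [hP, mul_sub, hE, mul_one, sub_self]
  have hPE : P * A ^ s = 0 := by
    rw [hP, sub_mul, hE, one_mul, sub_self]
  obtain ⟨G, hG⟩ : ∃ G, G = ∑ i ∈ range s, (-A) ^ i := ⟨_, rfl⟩
  have hcomG : Commute P G := by
    rw [hG]
    exact Commute.sum_right _ _ _ fun i _ => (hcom.neg_right).pow_right i
  have hgeo : (1 + A) * G = 1 - (-A) ^ s := by
    have h := mul_neg_geom_sum (-A) s
    rw [sub_neg_eq_add] at h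
    rw [hG]
    exact h
  have hinv : (A + P) * (A ^ (s - 1) * A ^ s + G * P) = 1 := by
    have h1 : (A + P) * (A ^ (s - 1) * A ^ s) = A ^ s := by
      rw [add_mul, ← mul_assoc, ← pow_succ', Nat.sub_add_cancel hs, hE, ← mul_assoc,
        (hcom.pow_right (s - 1)).eq, mul_assoc, hPE, mul_zero, add_zero]
    have h2 : (A + P) * (G * P) = P := by
      have h3 : (A + P) * (G * P) = (1 + A) * G * P := by
        have h4 : P * (G * P) = G * P := by
          rw [← mul_assoc, hcomG.eq, mul_assoc, hPP]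
        rw [add_mul, h4, mul_assoc (1 + A), add_mul, one_mul]
        abel
      rw [h3, hgeo, sub_mul, one_mul, neg_pow, mul_assoc, hsP, mul_zero, sub_zero]
    rw [mul_add, h1, h2, hP]
    abel
  exact ⟨P, _, hPP, hcom.eq, chain_zero A P hsP hcom.eq he, hinv, mul_eq_one_comm.1 hinv⟩

/-! ### Powers -/

/-- the least solution -/
private theorem mp_find {n : ℕ} {b : (Fin n → ℕ) → ℕ} (hb : DFun n b)
    {C : ℕ → (Fin n → ℕ) → Prop} (hC : Delta0 (n + 1) (fun w => C (w 0) (fun i => w i.succ))) :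
    ∃ u : (Fin n → ℕ) → ℕ, DFun n u ∧ (∀ v, u v ≤ b v) ∧
      ∀ v, (∃ x, x ≤ b v ∧ C x v) → C (u v) v := by
  classical
  let u : (Fin n → ℕ) → ℕ := fun v => if h : ∃ x, x ≤ b v ∧ C x v then Nat.find h else 0
  have hu : ∀ v, u v ≤ b v := by
    intro v
    by_cases h : ∃ x, x ≤ b v ∧ C x v
    · simp only [u, dif_pos h]
      exact (Nat.find_spec h).1
    · simp only [u, dif_neg h]
      exact Nat.zero_le _
  refine ⟨u, DFun.ofGraph hb hu ?_, hu, fun v h => ?_⟩
  · have h0 : DFun (n + 1) (fun w => w 0) := DFun.proj 0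
    have hC2 : Delta0 (n + 1 + 1) (fun w => w 0 = w 1 ∨ ¬ C (w 0) (fun i => w i.succ.succ)) := by
      refine (Delta0.eqFun (DFun.proj 0) (DFun.proj 1)).or (Delta0.not ?_)
      have h1 := hC.rename (n := n + 1 + 1) (Fin.cons 0 fun i => i.succ.succ)
      exact h1
    have hC3 : Delta0 (n + 1 + 1) (fun w => C (w 0) (fun i => w i.succ.succ)) := by
      have h1 := hC.rename (n := n + 1 + 1) (Fin.cons 0 fun i => i.succ.succ)
      exact h1
    have hA := ((Delta0.leFun h0 hb.weak).and hC).and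
      (Delta0.ballFun (n := n + 1) (b := fun w => w 0)
        (P := fun x w => x = w 0 ∨ ¬ C x (fun i => w i.succ)) h0 hC2)
    have hB := (Delta0.eqFun h0 (DFun.const 0)).and
      (Delta0.bexFun (n := n + 1) (b := fun w => b (fun i => w i.succ))
        (P := fun x w => C x (fun i => w i.succ)) hb.weak hC3).not
    refine (hA.or hB).of_iff fun w => ?_
    by_cases h : ∃ x, x ≤ b (fun i => w i.succ) ∧ C x (fun i => w i.succ)
    · have hu1 : u (fun i => w i.succ) = Nat.find h := dif_pos h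
      rw [hu1]
      constructor
      · intro e
        rw [e]
        refine Or.inl ⟨Nat.find_spec h, fun x hx => ?_⟩
        rcases hx.lt_or_eq with h2 | h2
        · right
          intro h3
          exact Nat.find_min h h2 ⟨h2.le.trans (Nat.find_spec h).1, h3⟩
        · exact Or.inl h2
      · rintro (⟨⟨h1, h2⟩, h3⟩ | ⟨-, h2⟩)
        · refine le_antisymm ?_ (Nat.find_min' h ⟨h1, h2⟩)
          by_contra h4
          push Not at h4
          rcases h3 _ h4.le with h5 | h5
          · exact h4.ne h5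
          · exact h5 (Nat.find_spec h).2
        · exact absurd h h2
    · have hu1 : u (fun i => w i.succ) = 0 := dif_neg h
      rw [hu1]
      constructor
      · intro e
        exact Or.inr ⟨e, h⟩
      · rintro (⟨⟨h1, h2⟩, -⟩ | ⟨e, -⟩)
        · exact absurd ⟨_, h1, h2⟩ h
        · exact e
  · have e : u v = Nat.find h := dif_pos h
    rw [e]
    exact (Nat.find_spec h).2

private theorem pow_split {r m : ℕ} {A P : Mat r (m + 1)} (hPP : P * P = P)
    (hPA : P * A = A * P) {e t : ℕ} (he : A ^ e * P = 0) (ht : e ≤ t) :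
    A ^ t = (A + P) ^ t * (1 - P) := by
  have hcom : Commute P A := hPA
  have h1 : ∀ k, (A + P) ^ k * (1 - P) = A ^ k * (1 - P) := by
    intro k
    induction k with
    | zero => rw [pow_zero, pow_zero]
    | succ k ih =>
      rw [pow_succ', mul_assoc, ih, add_mul, ← mul_assoc, ← pow_succ', ← mul_assoc P,
        (hcom.pow_right k).eq, mul_assoc (A ^ k), mul_sub P, mul_one, hPP, sub_self, mul_zero,
        add_zero]
  have h2 : A ^ t * P = 0 := by
    have e1 : t = (t - e) + e := by omega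
    rw [e1, pow_add, mul_assoc, he, mul_zero]
  rw [h1, mul_sub, mul_one, h2, sub_zero]

theorem mat_pow {r n : ℕ} {M t : (Fin n → ℕ) → ℕ} (hM : DFun n M) (ht : DFun n t)
    {A : ∀ u : Fin n → ℕ, Mat r (M u + 1)} (hA : MD M A) : MD M (fun u => A u ^ t u) := by
  classical
  have hM1 : DFun n (fun u => M u + 1) := hM.add (DFun.const 1)
  obtain ⟨e, he⟩ : ∃ e : (Fin n → ℕ) → ℕ, e = fun u => r * (lg (M u + 1) + 1) := ⟨_, rfl⟩
  have hed : DFun n e := by
    rw [he]
    exact (DFun.const r).mul ((DFun.lg hM1).add (DFun.const 1))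
  have hN : DFun n (fun u => 2 ^ r * (M u + 1)) := (DFun.const (2 ^ r)).mul hM1
  have hb : ∀ u, e u ≤ (lg (2 ^ r * (M u + 1)) + 1) ^ 2 := by
    intro u
    have h1 : r ≤ lg (2 ^ r * (M u + 1)) := by
      have h2 : lg (2 ^ r) = r := Nat.log_pow (by norm_num) r
      have h3 : lg (2 ^ r) ≤ lg (2 ^ r * (M u + 1)) :=
        Nat.log_mono_right (Nat.le_mul_of_pos_right _ (Nat.succ_pos _))
      omega
    have h2 : lg (M u + 1) ≤ lg (2 ^ r * (M u + 1)) :=
      Nat.log_mono_right (Nat.le_mul_of_pos_left _ (pow_pos (by norm_num) r))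
    rw [he, _root_.sq]
    exact Nat.mul_le_mul (by omega) (by omega)
  have hsm : MD M (fun u => A u ^ min (t u) (e u)) :=
    mat_small 2 hM (DFun.min ht hed) hN (fun u => (min_le_right _ _).trans (hb u)) hA
  have hAe : MD M (fun u => A u ^ e u) := mat_small 2 hM hed hN hb hA
  have h0 : MD (r := r) M (fun _ => 0) := fun i j => by
    have h := DFun.const (n := n) 0
    have e0 : (fun u : Fin n → ℕ => ((0 : Mat r (M u + 1)) i j).val) = fun _ => 0 := by
      funext u
      rw [Matrix.zero_apply, ZMod.val_zero]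
    rw [e0]
    exact h
  -- the least code of a decomposition
  have hex : ∀ u, ∃ x, x ≤ ((M u + 1) ^ (r * r) + 1) ^ 2 ∧
      ((mdec r (M u + 1) (Nat.unpair x).1 * mdec r (M u + 1) (Nat.unpair x).1 =
        mdec r (M u + 1) (Nat.unpair x).1) ∧
      (mdec r (M u + 1) (Nat.unpair x).1 * A u = A u * mdec r (M u + 1) (Nat.unpair x).1) ∧
      (A u ^ e u * mdec r (M u + 1) (Nat.unpair x).1 = 0) ∧
      ((A u + mdec r (M u + 1) (Nat.unpair x).1) * mdec r (M u + 1) (Nat.unpair x).2 = 1) ∧
      (mdec r (M u + 1) (Nat.unpair x).2 * (A u + mdec r (M u + 1) (Nat.unpair x).1) = 1)) := by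
    intro u
    obtain ⟨P, Q, h1, h2, h3, h4, h5⟩ := fitting (A u) (e := e u) (by rw [he])
    refine ⟨Nat.pair (menc P) (menc Q), ?_, ?_⟩
    · refine (Nat.pair_lt_max_add_one_sq _ _).le.trans ?_
      exact Nat.pow_le_pow_left (Nat.succ_le_succ (max_le (menc_le P) (menc_le Q))) 2
    · rw [Nat.unpair_pair, mdec_menc, mdec_menc]
      exact ⟨h1, h2, h3, h4, h5⟩
  have hPw : MD (fun w : Fin (n + 1) → ℕ => M (tl w))
      (fun w => mdec r (M (tl w) + 1) (Nat.unpair (w 0)).1) :=
    MD.dec hM.weak (DFun.unpair1 (DFun.proj 0))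
  have hQw : MD (fun w : Fin (n + 1) → ℕ => M (tl w))
      (fun w => mdec r (M (tl w) + 1) (Nat.unpair (w 0)).2) :=
    MD.dec hM.weak (DFun.unpair2 (DFun.proj 0))
  have hC : Delta0 (n + 1) (fun w =>
      ((mdec r (M (tl w) + 1) (Nat.unpair (w 0)).1 * mdec r (M (tl w) + 1) (Nat.unpair (w 0)).1 =
        mdec r (M (tl w) + 1) (Nat.unpair (w 0)).1) ∧
      (mdec r (M (tl w) + 1) (Nat.unpair (w 0)).1 * A (tl w) =
        A (tl w) * mdec r (M (tl w) + 1) (Nat.unpair (w 0)).1) ∧
      (A (tl w) ^ e (tl w) * mdec r (M (tl w) + 1) (Nat.unpair (w 0)).1 = 0) ∧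
      ((A (tl w) + mdec r (M (tl w) + 1) (Nat.unpair (w 0)).1) *
        mdec r (M (tl w) + 1) (Nat.unpair (w 0)).2 = 1) ∧
      (mdec r (M (tl w) + 1) (Nat.unpair (w 0)).2 *
        (A (tl w) + mdec r (M (tl w) + 1) (Nat.unpair (w 0)).1) = 1))) := by
    have hs := hA.weak.add hM.weak hPw
    exact (MD.eq (hPw.mul hM.weak hPw) hPw).and
      ((MD.eq (hPw.mul hM.weak hA.weak) (hA.weak.mul hM.weak hPw)).and
        ((MD.eq (hAe.weak.mul hM.weak hPw) h0.weak).and
          ((MD.eq (hs.mul hM.weak hQw) (MD.one hM.weak)).and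
            (MD.eq (hQw.mul hM.weak hs) (MD.one hM.weak)))))
  obtain ⟨z, hz, -, hzC⟩ := mp_find (n := n) (b := fun u => ((M u + 1) ^ (r * r) + 1) ^ 2)
    (DFun.powConst ((DFun.powConst hM1 (r * r)).add (DFun.const 1)) 2)
    (C := fun x u =>
      ((mdec r (M u + 1) (Nat.unpair x).1 * mdec r (M u + 1) (Nat.unpair x).1 =
        mdec r (M u + 1) (Nat.unpair x).1) ∧
      (mdec r (M u + 1) (Nat.unpair x).1 * A u = A u * mdec r (M u + 1) (Nat.unpair x).1) ∧
      (A u ^ e u * mdec r (M u + 1) (Nat.unpair x).1 = 0) ∧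
      ((A u + mdec r (M u + 1) (Nat.unpair x).1) * mdec r (M u + 1) (Nat.unpair x).2 = 1) ∧
      (mdec r (M u + 1) (Nat.unpair x).2 * (A u + mdec r (M u + 1) (Nat.unpair x).1) = 1))) hC
  have hz' := fun u => hzC u (hex u)
  obtain ⟨P, hP⟩ : ∃ P : ∀ u : Fin n → ℕ, Mat r (M u + 1),
    P = fun u => mdec r (M u + 1) (Nat.unpair (z u)).1 := ⟨_, rfl⟩
  obtain ⟨Q, hQ⟩ : ∃ Q : ∀ u : Fin n → ℕ, Mat r (M u + 1),
    Q = fun u => mdec r (M u + 1) (Nat.unpair (z u)).2 := ⟨_, rfl⟩
  have hPd : MD M P := by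
    rw [hP]
    exact MD.dec hM (DFun.unpair1 hz)
  have hall : ∀ u, P u * P u = P u ∧ P u * A u = A u * P u ∧ A u ^ e u * P u = 0 ∧
      (A u + P u) * Q u = 1 ∧ Q u * (A u + P u) = 1 := by
    intro u
    rw [hP, hQ]
    exact hz' u
  clear hz' hzC hC hex hPw hQw hP hQ hz
  have hU : MD M (fun u => (A u + P u) ^ t u) := by
    intro i j
    have h1 := gl_npow hM ht (A := fun u =>
      (⟨A u + P u, Q u, (hall u).2.2.2.1, (hall u).2.2.2.2⟩ : GL (Fin r) (ZMod (M u + 1))))
      (fun i j => (hA.add hM hPd) i j) i j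
    refine Eq.mp (congrArg (DFun n) ?_) h1
    funext u
    rw [Units.val_pow_eq_pow_val]
  have hbig : MD M (fun u => (A u + P u) ^ t u * (1 - P u)) :=
    hU.mul hM ((MD.one hM).sub hM hPd)
  intro i j
  have h1 := DFun.ite (Delta0.leFun ht hed) (hsm i j) (hbig i j)
  refine Eq.mp (congrArg (DFun n) ?_) h1
  funext u
  by_cases h : t u ≤ e u
  · rw [if_pos h]
    dsimp only
    rw [min_eq_left h]
  · rw [if_neg h]
    dsimp only
    obtain ⟨h2, h3, h4, -, -⟩ := hall u
    rw [← pow_split h2 h3 h4 (le_of_not_ge h)]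

end Pool.Agent.AlgA
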