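import Pool.Agent.LRch.MDef
import Pool.Agent.LPC.RecVec
import Pool.Agent.ECD.DvdDef

/-!
# Package AlgA-MatSmall: small powers of matrices over `ℤ/m`

*`mat_small`*. The matrix version of the private theorem `smallPow` of `Pool/Agent/ECD/PowMod.lean`
(read it first). Let `a i j = (A u i j).val < m`, `m = M u + 1`, and let `W i j` be the entry of the
power `t u` of the matrix `a` over `ℕ`: `W i j ≤ (r m) ^ t`, of length `≤ t (lg m + r)`, polylogarithmic
in `max m (N u)`. For a prime `q` bounded by a power of a logarithm the residues of the entries of the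
powers `a ^ 0, a ^ 1, …` modulo `q` satisfy a recursion of polylogarithmic length with values `< q`
(`κ = Fin r × Fin r`): by `rec_vec` (LPC/RecVec) the residue of `W i j` modulo `q` is `DFun` (of `q`, `u`;
take `min q …` to have the bounds for all arguments, as in `smallPow`). Now
`(A u ^ t u) i j` has the value `z < m` iff `m ∣ W i j - z`, and this is `Delta0` by `dvd_def`
(ECD/DvdDef, with the exponent `K` large enough). `DFun.ofGraph` with the bound `M`. ∎

Difficulty: 1.5 h.
-/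

set_option autoImplicit false

namespace Pool.Agent.AlgA

open Finset Pool.Agent.Grz Pool.Agent.GAvg Pool.Agent.PTr Pool.Agent.MTr Pool.Agent.LPC
  Pool.Agent.ECD Pool.Agent.LRch

/-- the representatives of the entries -/
private def aM_MatSmall {r m : ℕ} (A : Mat r m) : Matrix (Fin r) (Fin r) ℕ :=
  Matrix.of fun i j => (A i j).val

private theorem val_pow_MatSmall {r m : ℕ} (A : Mat r (m + 1)) (t : ℕ) (i j : Fin r) :
    ((A ^ t) i j).val = (aM_MatSmall A ^ t) i j % (m + 1) := by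
  have h1 : (Nat.castRingHom (ZMod (m + 1))).mapMatrix (aM_MatSmall A) = A := by
    ext i j
    show (((A i j).val : ℕ) : ZMod (m + 1)) = A i j
    exact ZMod.natCast_zmod_val _
  have h2 : A ^ t = (Nat.castRingHom (ZMod (m + 1))).mapMatrix (aM_MatSmall A ^ t) := by
    rw [map_pow, h1]
  rw [h2, ← ZMod.val_natCast]
  rfl

private theorem le_pow_MatSmall {r m : ℕ} (A : Mat r (m + 1)) (t : ℕ) (i j : Fin r) :
    (aM_MatSmall A ^ t) i j ≤ (r * (m + 1)) ^ t := by
  induction t generalizing i j with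
  | zero =>
    rw [pow_zero, pow_zero, Matrix.one_apply]
    split_ifs <;> omega
  | succ t ih =>
    rw [pow_succ, pow_succ, Matrix.mul_apply]
    have h1 : ∀ l ∈ (univ : Finset (Fin r)), (aM_MatSmall A ^ t) i l * aM_MatSmall A l j ≤
        (r * (m + 1)) ^ t * (m + 1) := fun l _ =>
      Nat.mul_le_mul (ih i l) (ZMod.val_lt (A l j)).le
    refine (Finset.sum_le_sum h1).trans ?_
    rw [Finset.sum_const, Finset.card_univ, Fintype.card_fin, smul_eq_mul]
    exact le_of_eq (by ring)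

private theorem lg_MatSmall (x : ℕ) : lg x + 2 ≤ lg (2 * x + 2) + 1 := by
  have h1 : lg (2 * x + 2) = lg (x + 1) + 1 := by
    have h2 : 2 * x + 2 = (x + 1) * 2 := by ring
    rw [h2]
    exact Nat.log_mul_base (by norm_num) (by omega)
  have h3 : lg x ≤ lg (x + 1) := Nat.log_mono_right (by omega)
  omega

private theorem lg_mono_MatSmall {x y : ℕ} (h : x ≤ y) : lg x ≤ lg y := Nat.log_mono_right h

/-- residues of the entries modulo small numbers -/
private theorem small_MatSmall {r n : ℕ} (K : ℕ) {M t N q : (Fin n → ℕ) → ℕ}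
    (ht : DFun n t) (hN : DFun n N) (hq : DFun n q) (hq0 : ∀ u, 0 < q u)
    (htb : ∀ u, t u ≤ (lg (N u) + 1) ^ K) (hqb : ∀ u, q u ≤ (lg (N u) + 1) ^ K)
    {A : ∀ u : Fin n → ℕ, Mat r (M u + 1)} (hA : MD M A) (i j : Fin r) :
    DFun n (fun u => (aM_MatSmall (A u) ^ t u) i j % q u) := by
  refine rec_vec (r := n) (κ := Fin r × Fin r) K
    (A := fun k u => (if k.1 = k.2 then 1 else 0) % q u) (L := t) (N := N)
    (H := fun k _ x u => (∑ l : Fin r, x (k.1, l) * (A u l k.2).val) % q u)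
    (f := fun s u k => (aM_MatSmall (A u) ^ s) k.1 k.2 % q u) ?_ ht hN ?_ ?_ ?_ htb ?_ (i, j)
  · intro k
    exact DFun.modPos (DFun.const _) hq hq0
  · intro k n' s x v _ hx hv
    exact DFun.modPos (DFun.finSum univ fun l => (hx (k.1, l)).mul ((hA l k.2).comp hv))
      (hq.comp hv) fun w => hq0 _
  · intro u k
    show (aM_MatSmall (A u) ^ 0) k.1 k.2 % q u = _
    rw [pow_zero, Matrix.one_apply]
  · intro u s _ k
    show (aM_MatSmall (A u) ^ (s + 1)) k.1 k.2 % q u =
      (∑ l : Fin r, (aM_MatSmall (A u) ^ s) k.1 l % q u * (A u l k.2).val) % q u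
    rw [pow_succ, Matrix.mul_apply]
    refine (ZMod.natCast_eq_natCast_iff' _ _ _).1 ?_
    push_cast
    refine Finset.sum_congr rfl fun l _ => ?_
    rw [ZMod.natCast_mod]
    rfl
  · intro u s _ k
    exact (Nat.mod_lt _ (hq0 u)).le.trans (hqb u)

theorem mat_small {r n : ℕ} (K : ℕ) {M t N : (Fin n → ℕ) → ℕ} (hM : DFun n M) (ht : DFun n t)
    (hN : DFun n N) (hb : ∀ u, t u ≤ (lg (N u) + 1) ^ K) {A : ∀ u : Fin n → ℕ, Mat r (M u + 1)}
    (hA : MD M A) : MD M (fun u => A u ^ t u) := by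
  intro i j
  obtain ⟨K₂, hK⟩ := dvd_def (K + 1)
  obtain ⟨N', hN'⟩ : ∃ N' : (Fin n → ℕ) → ℕ, N' = fun u => (r + 1) * (M u + 1) + N u := ⟨_, rfl⟩
  obtain ⟨m, hm⟩ : ∃ m : (Fin n → ℕ) → ℕ, m = fun u => M u + 1 := ⟨_, rfl⟩
  have hNd : DFun n N' := by
    rw [hN']
    exact ((DFun.const (r + 1)).mul (hM.add (DFun.const 1))).add hN
  have hmd : DFun n m := by
    rw [hm]
    exact hM.add (DFun.const 1)
  have hm0 : ∀ u, 0 < m u := fun u => by
    rw [hm]
    exact Nat.succ_pos _
  have hmN : ∀ u, m u ≤ N' u := fun u => by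
    rw [hN', hm]
    show M u + 1 ≤ (r + 1) * (M u + 1) + N u
    nlinarith
  have hrN : ∀ u, r * m u ≤ N' u := fun u => by
    rw [hN', hm]
    show r * (M u + 1) ≤ (r + 1) * (M u + 1) + N u
    nlinarith
  have hNN : ∀ u, N u ≤ N' u := fun u => by
    rw [hN']
    exact Nat.le_add_left _ _
  have htN : ∀ u, t u ≤ (lg (N' u) + 1) ^ K := fun u =>
    (hb u).trans (Nat.pow_le_pow_left (by
      have := lg_mono_MatSmall (hNN u)
      omega) K)
  obtain ⟨W, hW⟩ : ∃ W : (Fin n → ℕ) → ℕ, W = fun u => (aM_MatSmall (A u) ^ t u) i j := ⟨_, rfl⟩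
  have hWb : ∀ u, W u < 2 ^ lp (N' u) (K + 1) := fun u => by
    have h1 : W u ≤ (r * m u) ^ t u := by
      rw [hW, hm]
      exact le_pow_MatSmall _ _ _ _
    have h2 : r * m u < 2 ^ (lg (N' u) + 1) := (hrN u).trans_lt (lt_two_pow_lg _)
    refine (h1.trans (Nat.pow_le_pow_left h2.le _)).trans_lt ?_
    rw [← pow_mul]
    refine Nat.pow_lt_pow_right (by norm_num) ?_
    rw [ECD.lp, pow_succ]
    have h3 : (lg (N' u) + 1) * t u ≤ (lg (N' u) + 1) * (lg (N' u) + 1) ^ K :=
      Nat.mul_le_mul_left _ (htN u)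
    have h4 : (lg (N' u) + 1) ^ K ≤ (lg (N' u) + 2) ^ K := Nat.pow_le_pow_left (by omega) K
    have h5 : 0 < (lg (N' u) + 2) ^ K := pow_pos (by omega) K
    nlinarith
  have hyb : ∀ u y, min y (m u) < 2 ^ lp (N' u) (K + 1) := fun u y => by
    refine (min_le_right _ _).trans_lt ((hmN u).trans_lt ((lt_two_pow_lg _).trans_le ?_))
    refine Nat.pow_le_pow_right (by norm_num) ?_
    rw [ECD.lp]
    exact le_trans (by omega) (Nat.le_self_pow (Nat.succ_ne_zero K) _)
  have key := hK (r := n + 1) (m := fun w => m (tl w)) (N := fun w => N' (tl w))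
    (W := fun w => (W (tl w) : ℤ) - ((min (w 0) (m (tl w)) : ℕ) : ℤ))
    (R := fun q w => W (tl w) % (min q (lp (N' (tl w)) K₂) - 1 + 1) +
      ((min q (lp (N' (tl w)) K₂) - 1 + 1) * (min (w 0) (m (tl w))) - (min (w 0) (m (tl w)))))
    hmd.weak hNd.weak (fun w => hm0 _) (fun w => hmN _) ?_ ?_ ?_
  · have e : (fun u => ((A u ^ t u) i j).val) = fun u => W u % m u := by
      funext u
      rw [hW, hm]
      exact val_pow_MatSmall _ _ _ _
    show DFun n (fun u => ((A u ^ t u) i j).val)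
    rw [e]
    refine DFun.ofGraph (b := m) hmd (fun u => (Nat.mod_lt _ (hm0 u)).le) ?_
    refine ((Delta0.ltFun (DFun.proj 0) hmd.weak).and key).of_iff fun w => ?_
    constructor
    · intro h
      have h1 : w 0 < m (tl w) := by
        rw [h]
        exact Nat.mod_lt _ (hm0 _)
      refine ⟨h1, ?_⟩
      rw [min_eq_left h1.le, h]
      refine (Int.modEq_iff_dvd).1 ((Int.natCast_modEq_iff).2 ?_)
      exact Nat.mod_modEq _ _
    · rintro ⟨h1, h2⟩
      rw [min_eq_left (le_of_lt h1)] at h2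
      have h3 := (Int.natCast_modEq_iff).1 ((Int.modEq_iff_dvd).2 h2)
      have h5 : w 0 % m (tl w) = W (tl w) % m (tl w) := h3
      rwa [Nat.mod_eq_of_lt h1] at h5
  · have hq : DFun (n + 1 + 1) (fun w => min (w 0) (lp (N' fun i => w i.succ.succ) K₂) - 1 + 1) :=
      ((DFun.min (DFun.proj 0) (DFun.powConst
        ((DFun.lg hNd.weak.weak).add (DFun.const 2)) K₂)).sub (DFun.const 1)).add (DFun.const 1)
    have hy : DFun (n + 1 + 1) (fun w => min (w 1) (m fun i => w i.succ.succ)) :=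
      DFun.min (DFun.proj 1) hmd.weak.weak
    have h1 := small_MatSmall (n := n + 1 + 1) (K + K₂ + 1)
      (M := fun w => M (fun i => w i.succ.succ)) (t := fun w => t (fun i => w i.succ.succ))
      (N := fun w => 2 * N' (fun i => w i.succ.succ) + 2)
      (q := fun w => min (w 0) (lp (N' fun i => w i.succ.succ) K₂) - 1 + 1)
      ht.weak.weak (((DFun.const 2).mul hNd.weak.weak).add (DFun.const 2)) hq
      (fun w => Nat.succ_pos _) (fun w => ?_) (fun w => ?_)
      (A := fun w => A (fun i => w i.succ.succ)) hA.weak.weak i j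
    · have e2 : (fun w : Fin (n + 1 + 1) → ℕ => W (fun i => w i.succ.succ) %
          (min (w 0) (lp (N' fun i => w i.succ.succ) K₂) - 1 + 1)) = fun w =>
          (aM_MatSmall (A fun i => w i.succ.succ) ^ t (fun i => w i.succ.succ)) i j %
          (min (w 0) (lp (N' fun i => w i.succ.succ) K₂) - 1 + 1) := by
        rw [hW]
      rw [← e2] at h1
      exact h1.add ((hq.mul hy).sub hy)
    · refine (htN _).trans ?_
      have h2 := lg_MatSmall (N' fun i => w i.succ.succ)
      exact (Nat.pow_le_pow_left (by omega) K).trans (Nat.pow_le_pow_right (by omega) (by omega))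
    · have h2 := lg_MatSmall (N' fun i => w i.succ.succ)
      have h3 : (1 : ℕ) ≤ lp (N' fun i => w i.succ.succ) K₂ := Nat.one_le_pow _ _ (by omega)
      have h4 : min (w 0) (lp (N' fun i => w i.succ.succ) K₂) ≤
        lp (N' fun i => w i.succ.succ) K₂ := min_le_right _ _
      have h5 : lp (N' fun i => w i.succ.succ) K₂ ≤
          (lg (2 * N' (fun i => w i.succ.succ) + 2) + 1) ^ (K + K₂ + 1) := by
        rw [ECD.lp]
        exact (Nat.pow_le_pow_left h2 K₂).trans (Nat.pow_le_pow_right (by omega) (by omega))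
      omega
  · intro w
    have h1 := hWb (tl w)
    have h2 := hyb (tl w) (w 0)
    show ((W (tl w) : ℤ) - ((min (w 0) (m (tl w)) : ℕ) : ℤ)).natAbs < _
    omega
  · intro w q hq hqK
    have h1 : min q (lp (N' (tl w)) K₂) - 1 + 1 = q := by
      rw [min_eq_left hqK, Nat.sub_add_cancel hq.one_lt.le]
    show ((W (tl w) % (min q (lp (N' (tl w)) K₂) - 1 + 1) +
      ((min q (lp (N' (tl w)) K₂) - 1 + 1) * (min (w 0) (m (tl w))) -
        (min (w 0) (m (tl w)))) : ℕ) : ℤ) ≡
      (W (tl w) : ℤ) - ((min (w 0) (m (tl w)) : ℕ) : ℤ) [ZMOD q]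
    rw [h1]
    have h2 : min (w 0) (m (tl w)) ≤ q * min (w 0) (m (tl w)) :=
      Nat.le_mul_of_pos_left _ hq.pos
    rw [Nat.cast_add, Nat.cast_sub h2, Nat.cast_mul]
    have h3 : ((W (tl w) % q : ℕ) : ℤ) ≡ (W (tl w) : ℤ) [ZMOD q] := by
      rw [Int.natCast_mod]
      exact Int.mod_modEq _ _
    have h4 : ((q : ℤ) * ((min (w 0) (m (tl w)) : ℕ) : ℤ) - ((min (w 0) (m (tl w)) : ℕ) : ℤ)) ≡
        0 - ((min (w 0) (m (tl w)) : ℕ) : ℤ) [ZMOD q] :=
      Int.ModEq.sub_right _ ((Int.modEq_zero_iff_dvd).2 (Dvd.intro _ rfl))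
    have h5 := h3.add h4
    rw [zero_sub, ← sub_eq_add_neg] at h5
    exact h5

end Pool.Agent.AlgA
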